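import Pool.Agent.P.MP_6870a6_co.Proof

open Polynomial Pool.Agent.P.MP_6870a6_co

namespace Pool.Agent.Results.MP_6870a6_co.MirrorUnique

/-- No two distinct vertices of the mirror Markov tree have the same maximum.
The first part certifies that the definition of the tree is the intended one: at every vertex
below `t₀` both divisions in the mutations are exact, the triple is written in increasing order of
its values at `q = 1`, and its last entry is the one of highest degree. -/
theorem result :
    (∀ w : List Bool,
      IsJump (node w).b (node w).a (node w).c (node w).sgn (node w).left.c ∧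
      IsJump (node w).a (node w).b (node w).c (-(node w).sgn) (node w).right.c ∧
      (node w).a ≠ 0 ∧ (node w).b ≠ 0 ∧
      (node w).a.eval 1 ≤ (node w).b.eval 1 ∧ (node w).b.eval 1 ≤ (node w).c.eval 1 ∧
      (node w).a.natDegree < (node w).c.natDegree ∧
      (node w).b.natDegree < (node w).c.natDegree) ∧
    Function.Injective fun v : Vertex => (triple v).2.2 := by
  refine ⟨fun w => ?_, max_injective⟩
  have h := good_node w
  have hd := h.deg
  exact ⟨h.jumpL, h.jumpR, ne_zero_of_tt h.ta, ne_zero_of_tt h.tb, h.eab, h.ebc,
    by omega, by omega⟩

end Pool.Agent.Results.MP_6870a6_co.MirrorUnique
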